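import Mathlib
import Pool.Agent.Q281.SM.Example
import Pool.Agent.Q281.SM.Units

/-!
# A non-sofic monoid whose `J`-class of the identity is a sofic group
-/

namespace Pool.Agent.Results.MP_6d1796_al.SoficJOneNotSofic

/-- Sofic monoids: for every finite `K ⊆ M` and every `ε > 0` there are a finite nonempty set `X`
and a map `M × X → X`, `(m, x) ↦ f m x`, such that `1` acts as the identity, for all `g, h ∈ K` at
least `(1 - ε)|X|` points `x` satisfy `g(hx) = (gh)x`, and for all `g ≠ h` in `K` at most `ε|X|`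
points `x` satisfy `gx = hx`. -/
def Sofic (M : Type*) [Monoid M] : Prop :=
  ∀ (K : Finset M) (ε : ℝ), 0 < ε →
    ∃ (X : Type) (_ : Finite X) (_ : Nonempty X) (f : M → X → X),
      (∀ x, f 1 x = x) ∧
      (∀ g ∈ K, ∀ h ∈ K, (1 - ε) * Nat.card X ≤ Nat.card {x : X // f g (f h x) = f (g * h) x}) ∧
      (∀ g ∈ K, ∀ h ∈ K, g ≠ h → (Nat.card {x : X // f g x = f h x} : ℝ) ≤ ε * Nat.card X)

/-- The `J`-class of the identity: all `m` with `MmM = M`. -/
def JOne (M : Type*) [Monoid M] : Set M := {m | ∀ x : M, ∃ a b : M, a * m * b = x}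

lemma card_add {X : Type} [Finite X] (P : X → Prop) :
    (Nat.card {x // P x} : ℝ) + Nat.card {x // ¬ P x} = Nat.card X := by
  classical
  have h := Nat.card_congr (Equiv.sumCompl P)
  rw [Nat.card_sum] at h
  exact_mod_cast h

lemma sofic_iff {M : Type*} [Monoid M] : Sofic M ↔ Q281.SM.IsSofic M := by
  constructor
  · intro h K ε hε
    obtain ⟨X, iF, iN, f, h1, h2, h3⟩ := h K ε hε
    refine ⟨X, iF, iN, f, h1, h2, fun s hs t ht hst => ?_⟩
    have h4 := h3 s hs t ht hst
    have h5 := card_add (fun x => f s x = f t x)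
    linarith
  · intro h K ε hε
    obtain ⟨X, iF, iN, f, h1, h2, h3⟩ := h K ε hε
    refine ⟨X, iF, iN, f, h1, h2, fun s hs t ht hst => ?_⟩
    have h4 := h3 s hs t ht hst
    have h5 := card_add (fun x => f s x = f t x)
    linarith

/-- There is a monoid whose `J`-class of the identity is the group of units and whose group of
units is sofic, but which is not sofic. -/
theorem result : ∃ (M : Type) (_ : Monoid M),
    JOne M = {m | IsUnit m} ∧ Sofic Mˣ ∧ ¬ Sofic M := by
  refine ⟨Q281.SM.NMon Q281.SM.H0, inferInstance, Q281.SM.nJOne, ?_, ?_⟩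
  · rw [sofic_iff]
    exact (Q281.SM.isSofic_of_locSep (Q281.SM.locSep Q281.SM.X0)).of_mulEquiv
      (Q281.SM.nUnits Q281.SM.H0)
  · rw [sofic_iff]
    exact Q281.SM.not_sofic_NMon

end Pool.Agent.Results.MP_6d1796_al.SoficJOneNotSofic
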